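import Mathlib
import Pool.Agent.H69.Grig

open Pool.Agent.H69.Grig

namespace Pool.Agent.Results.MP_a9f5dc_al.Quotient

/-- The Grigorchuk group is a quotient of the genus two surface group. -/
theorem result : ∃ u₁ v₁ u₂ v₂ : Equiv.Perm (List Bool),
    Subgroup.closure {u₁, v₁, u₂, v₂} = grig ∧
      (u₁ * v₁ * u₁⁻¹ * v₁⁻¹) * (u₂ * v₂ * u₂⁻¹ * v₂⁻¹) = 1 := by
  refine ⟨gen .b, gen .c, gen .a, 1, le_antisymm ?_ ?_, ?_⟩
  · rw [Subgroup.closure_le]
    rintro x (rfl | rfl | rfl | rfl)
    · exact Subgroup.subset_closure ⟨_, rfl⟩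
    · exact Subgroup.subset_closure ⟨_, rfl⟩
    · exact Subgroup.subset_closure ⟨_, rfl⟩
    · exact grig.one_mem
  · rw [grig, Subgroup.closure_le]
    rintro x ⟨s, rfl⟩
    cases s
    · exact Subgroup.subset_closure (by simp)
    · exact Subgroup.subset_closure (by simp)
    · exact Subgroup.subset_closure (by simp)
    · rw [← bc]
      exact Subgroup.mul_mem _ (Subgroup.subset_closure (by simp))
        (Subgroup.subset_closure (by simp))
  · rw [bc, ← cb]
    group

end Pool.Agent.Results.MP_a9f5dc_al.Quotient
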